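import Pool.Agent.GProd.Inv
import Pool.Agent.GProd.FO

/-!
# No automorphism-invariant graph product of bounded arity is `c`-multiplicative

See `Pool/Agent/GProd/Basic.lean` (finite graphs, `Multiplicative`) and
`Pool/Agent/GProd/Inv.lean` (`InvariantProduct`).  The proof is due to helper28.
-/

namespace Pool.Agent.Results.MP_99abf8_co.InvariantProducts

open Pool.Agent.GProd Filter

theorem chi_arcX_le {s : ℕ} (hs : 1 ≤ s) : (arcX s).chi ≤ 2 * s := by
  obtain ⟨ℓ, rfl⟩ : ∃ ℓ, s = ℓ + 1 := ⟨s - 1, by omega⟩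
  have e : Fin (2 ^ (ℓ + 1)) ≃ (Fin (ℓ + 1) → Bool) := Fintype.equivOfCardEq (by simp)
  obtain ⟨f, hf⟩ := exists_cut_colour (fun i => e i)
  have hcut : ∀ p : Fin (2 ^ (ℓ + 1)) × Fin (2 ^ (ℓ + 1)), p ∈ cut (fun i => e i) :=
    fun p hp h => hp (e.injective h)
  refine FinGraph.chi_le ?_
  let C : (arcX (ℓ + 1)).G.Coloring (Fin (ℓ + 1) × Bool) :=
    SimpleGraph.Coloring.mk f (fun {p q} hpq => hf p (hcut p) q (hcut q) hpq)
  have := C.colorable
  simpa [mul_comm] using this

theorem exists_large (d n : ℕ) : ∃ s : ℕ, 1 ≤ s ∧ n ≤ s ∧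
    ((2 * s) ^ 2 + 1) * (d * 2) + 2 * (d * 2) ≤ 2 ^ s := by
  have h1 : Tendsto (fun s : ℕ => (s : ℝ) ^ 2 * (1 / 2 : ℝ) ^ s) atTop (nhds 0) :=
    tendsto_pow_const_mul_const_pow_of_lt_one 2 (by norm_num) (by norm_num)
  have h2 : ∀ᶠ s : ℕ in atTop, (s : ℝ) ^ 2 * (1 / 2 : ℝ) ^ s < 1 / (16 * (d + 1)) :=
    h1.eventually (gt_mem_nhds (by positivity))
  obtain ⟨s, hs, hs1, hsn⟩ :=
    (h2.and ((eventually_ge_atTop 1).and (eventually_ge_atTop n))).exists
  refine ⟨s, hs1, hsn, ?_⟩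
  have hs1' : (1 : ℝ) ≤ s := by exact_mod_cast hs1
  have h3 : (s : ℝ) ^ 2 * (16 * (d + 1)) < 2 ^ s := by
    rw [lt_div_iff₀ (by positivity), one_div, inv_pow] at hs
    have h5 : (s : ℝ) ^ 2 * (16 * (d + 1)) * (2 ^ s)⁻¹ < 1 := by linarith
    rwa [mul_inv_lt_iff₀ (by positivity), one_mul] at h5
  have h4 : (((2 * s) ^ 2 + 1) * (d * 2) + 2 * (d * 2) : ℝ) ≤ 2 ^ s := by
    have hd : (0 : ℝ) ≤ d := by positivity
    nlinarith [mul_nonneg hd (sq_nonneg ((s : ℝ) - 1)), mul_le_mul_of_nonneg_left hs1' hd]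
  exact_mod_cast h4

/-- **The linear bound.** -/
theorem linear {P : FinGraph → FinGraph → FinGraph} (hP : InvariantProduct P)
    (hup : ∀ X Y, (P X Y).chi ≤ X.chi * Y.chi) :
    ∃ C : ℕ, ∀ n : ℕ, ∃ X : FinGraph, n ≤ X.chi ∧ (P X X).chi ≤ C * X.chi := by
  classical
  obtain ⟨t, d, R, hinv, hdef⟩ := hP
  set M := 8 * d ^ 2 + 1 with hM
  refine ⟨(2 * d + 1) * (t * (2 ^ d * M ^ (2 * d))), fun n => ?_⟩
  obtain ⟨s, hs1, hsn, hs2⟩ := exists_large d n
  have hsX : s ≤ (arcX s).chi := le_chi_arcX s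
  refine ⟨arcX s, hsn.trans hsX, ?_⟩
  obtain ⟨π, hπ, hadj⟩ := hdef (arcX s) (arcX s)
  choose rep hrep using hπ
  obtain ⟨f, hf⟩ := exists_separating (2 ^ s) d s rfl M hM
  let u : (P (arcX s) (arcX s)).V → Fin d × Bool → Fin (2 ^ s) := fun w => ptTup (rep w).1.2
  let σ : (P (arcX s) (arcX s)).V → Fin d → Bool := fun w j => ((rep w).1.2 j).isLeft
  have hmk : ∀ w, mkTup (σ w) (u w) = (rep w).1.2 := fun w => mkTup_ptTup _
  let r : (P (arcX s) (arcX s)).V → Fin (2 * d * s + 1) := fun w => (hf (u w)).choose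
  have hr : ∀ w p q, f (r w) (u w p) = f (r w) (u w q) → u w p = u w q := fun w =>
    (hf (u w)).choose_spec
  let col : (P (arcX s) (arcX s)).V →
      (Fin (2 * d * s + 1) × Fin t) × ((Fin d → Bool) × (Fin d × Bool → Fin M)) := fun w =>
    ((r w, (rep w).1.1), (σ w, fun p => f (r w) (u w p)))
  have hvalid : ∀ {w w'}, (P (arcX s) (arcX s)).G.Adj w w' → col w ≠ col w' := by
    intro w w' hww hcol
    simp only [col, Prod.mk.injEq] at hcol
    obtain ⟨⟨c1, c2⟩, c3, c4⟩ := hcol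
    have c4' : ∀ p, f (r w) (u w p) = f (r w) (u w' p) := fun p => by
      have h := congrFun c4 p
      rw [h, c1]
    have hinjv : ∀ p q, f (r w) (u w' p) = f (r w) (u w' q) → u w' p = u w' q := by
      rw [c1]; exact hr w'
    have h1 : ∀ p q, u w p = u w q ↔ u w' p = u w' q := by
      intro p q
      constructor
      · intro h
        apply hinjv
        rw [← c4' p, ← c4' q, h]
      · intro h
        apply hr
        rw [c4' p, c4' q, h]
    have h2 : ∀ p q, u w p = u w' q → u w p = u w' p := by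
      intro p q h
      have h3 : u w p = u w q := by
        apply hr
        rw [c4' q, h]
      rw [h, (h1 p q).1 h3]
    obtain ⟨z, hz⟩ := exists_tuples (K := (2 * s) ^ 2 + 1) (u w) (u w') h1 h2 hs2
    set i₀ := (rep w).1.1 with hi₀
    have hE0 : R.E (arcX s) (arcX s) i₀ (mkTup (σ w) (u w)) i₀ (mkTup (σ w) (u w')) := by
      have h3 := hww
      rw [← hrep w, ← hrep w', hadj] at h3
      rw [hmk w]
      have h4 : mkTup (σ w) (u w') = (rep w').1.2 := by rw [c3]; exact hmk w'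
      rw [h4, hi₀]
      rw [← c2] at h3
      exact h3
    have hD0 : R.D (arcX s) (arcX s) i₀ (mkTup (σ w) (u w)) := by
      rw [hmk w]; exact (rep w).2
    -- the tuples satisfy `D`
    have hK : 1 < (2 * s) ^ 2 + 1 := by nlinarith
    have hDz : ∀ i, R.D (arcX s) (arcX s) i₀ (mkTup (σ w) (z i)) := by
      intro i
      obtain ⟨j, hj⟩ : ∃ j : Fin ((2 * s) ^ 2 + 1), i ≠ j := by
        by_cases h0 : i = ⟨0, by omega⟩
        · exact ⟨⟨1, hK⟩, by rw [h0]; simp [Fin.ext_iff]⟩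
        · exact ⟨⟨0, by omega⟩, h0⟩
      obtain ⟨g, hg1, _⟩ := hz i j hj
      have h3 := ((hinv (arcX s) (arcX s) (arcAut g) (arcAut g)).1 i₀
        (mkTup (σ w) (u w))).1 hD0
      have h4 := map_mkTup g (σ w) (u w)
      rw [hg1] at h4
      exact h4 ▸ h3
    have hEz : ∀ i j, i ≠ j → R.E (arcX s) (arcX s) i₀ (mkTup (σ w) (z i)) i₀
        (mkTup (σ w) (z j)) := by
      intro i j hij
      obtain ⟨g, hg1, hg2⟩ := hz i j hij
      have h3 := ((hinv (arcX s) (arcX s) (arcAut g) (arcAut g)).2 i₀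
        (mkTup (σ w) (u w)) i₀ (mkTup (σ w) (u w'))).1 hE0
      have h4 := map_mkTup g (σ w) (u w)
      have h5 := map_mkTup g (σ w) (u w')
      rw [hg1] at h4
      rw [hg2] at h5
      exact h5 ▸ (h4 ▸ h3)
    -- a large clique
    obtain ⟨c⟩ := (P (arcX s) (arcX s)).colorable
    have hinj : Function.Injective fun i => c (π ⟨(i₀, mkTup (σ w) (z i)), hDz i⟩) := by
      intro i j hij
      by_contra hne
      exact c.valid ((hadj _ _).2 (hEz i j hne)) hij
    have hcard := Fintype.card_le_of_injective _ hinj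
    rw [Fintype.card_fin, Fintype.card_fin] at hcard
    have h6 := hup (arcX s) (arcX s)
    have h7 := chi_arcX_le hs1
    have h8 := Nat.mul_le_mul h7 h7
    have h9 : 2 * s * (2 * s) = (2 * s) ^ 2 := by ring
    omega
  have hcolor : (P (arcX s) (arcX s)).chi ≤
      (2 * d * s + 1) * t * (2 ^ d * M ^ (2 * d)) := by
    refine FinGraph.chi_le ?_
    let C : (P (arcX s) (arcX s)).G.Coloring
        ((Fin (2 * d * s + 1) × Fin t) × ((Fin d → Bool) × (Fin d × Bool → Fin M))) :=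
      SimpleGraph.Coloring.mk col hvalid
    have h3 := C.colorable
    have h4 : Fintype.card ((Fin (2 * d * s + 1) × Fin t) ×
        ((Fin d → Bool) × (Fin d × Bool → Fin M))) =
        (2 * d * s + 1) * t * (2 ^ d * M ^ (2 * d)) := by
      simp only [Fintype.card_prod, Fintype.card_fun, Fintype.card_fin, Fintype.card_bool]
      rw [mul_comm d 2]
    rwa [h4] at h3
  calc (P (arcX s) (arcX s)).chi ≤ (2 * d * s + 1) * t * (2 ^ d * M ^ (2 * d)) := hcolor
    _ ≤ ((2 * d + 1) * s) * t * (2 ^ d * M ^ (2 * d)) := by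
        apply Nat.mul_le_mul_right
        apply Nat.mul_le_mul_right
        nlinarith
    _ ≤ ((2 * d + 1) * (arcX s).chi) * t * (2 ^ d * M ^ (2 * d)) := by
        apply Nat.mul_le_mul_right
        apply Nat.mul_le_mul_right
        exact Nat.mul_le_mul_left _ hsX
    _ = (2 * d + 1) * (t * (2 ^ d * M ^ (2 * d))) * (arcX s).chi := by ring

/-- a linear bound along a sequence of graphs excludes multiplicativity -/
theorem not_multiplicative {P : FinGraph → FinGraph → FinGraph}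
    (h : ∃ C : ℕ, ∀ n : ℕ, ∃ X : FinGraph, n ≤ X.chi ∧ (P X X).chi ≤ C * X.chi)
    {c : ℝ} (hc : 0 < c) : ¬ Multiplicative c P := by
  intro hmul
  obtain ⟨C, hC⟩ := h
  obtain ⟨n, hn⟩ := exists_nat_gt ((C : ℝ) / c)
  obtain ⟨X, h1, h2⟩ := hC (n + 1)
  have h3 := (hmul X X).1
  have h4 : ((P X X).chi : ℝ) ≤ C * X.chi := by exact_mod_cast h2
  have h5 : ((n : ℝ) + 1) ≤ X.chi := by exact_mod_cast h1
  have h6 : 0 < (X.chi : ℝ) := by
    have : (0 : ℝ) ≤ n := by positivity
    linarith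
  have h7 : c * (X.chi : ℝ) ≤ C := by
    have : c * (X.chi : ℝ) * X.chi ≤ C * X.chi := by linarith
    exact le_of_mul_le_mul_right this h6
  rw [div_lt_iff₀ hc] at hn
  nlinarith

/-- **Main theorem.**  Let `P` be an automorphism-invariant graph product of bounded arity: for
some `t` and `d` the vertices of `P X Y` are represented by tagged `d`-tuples of vertices of `X`
and `Y`, where the set of tuples and the adjacency of representatives are invariant under
automorphisms of `X` and `Y`.  Then `P` is not `c`-multiplicative, for any `c > 0`; more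
precisely, if `χ(X * Y) ≤ χ(X) χ(Y)` for all `X`, `Y`, then there is a constant `C` with
`χ(X * X) ≤ C χ(X)` for graphs `X` of arbitrarily large chromatic number. -/
theorem result (P : FinGraph → FinGraph → FinGraph) (hP : InvariantProduct P) :
    (∀ c : ℝ, 0 < c → ¬ Multiplicative c P) ∧
      ((∀ X Y, (P X Y).chi ≤ X.chi * Y.chi) →
        ∃ C : ℕ, ∀ n : ℕ, ∃ X : FinGraph, n ≤ X.chi ∧ (P X X).chi ≤ C * X.chi) := by
  refine ⟨fun c hc hmul => ?_, fun hup => linear hP hup⟩
  refine not_multiplicative (linear hP fun X Y => ?_) hc hmul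
  have := (hmul X Y).2
  exact_mod_cast this

end Pool.Agent.Results.MP_99abf8_co.InvariantProducts
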