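import Pool.Agent.GProd.Local

/-!
# No local graph product is `c`-multiplicative

See `Pool/Agent/GProd/Basic.lean` (finite graphs, `Multiplicative`),
`Pool/Agent/GProd/Hered.lean` (`SizeBound`) and `Pool/Agent/GProd/Local.lean` (`LocalProd`,
`BitLocal`).
-/

namespace Pool.Agent.Results.MP_99abf8_co.LocalProducts

open Pool.Agent.GProd Filter Topology

theorem card_arcX (s : ℕ) : Fintype.card (arcX s).V + Fintype.card (arcX s).V =
    2 ^ (2 * s + 1) := by
  have : Fintype.card (arcX s).V = 2 ^ s * 2 ^ s := by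
    change Fintype.card (Fin (2 ^ s) × Fin (2 ^ s)) = _
    simp
  rw [this]; ring

theorem chi_le_card (X : FinGraph) : X.chi ≤ Fintype.card X.V :=
  FinGraph.chi_le X.G.colorable_of_fintype

/-- a `c`-multiplicative product has at least `c n ^ 2 / 4` vertices -/
theorem size_lower {P : FinGraph → FinGraph → FinGraph} {M : ℕ → ℕ} (hM : SizeBound M P)
    {c : ℝ} (hmul : Multiplicative c P) (m : ℕ) :
    c * ((m + 1 : ℝ) * (m + 1)) ≤ M ((m + 1) + (m + 1)) := by
  have h1 := (hmul (completeF m) (completeF m)).1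
  have h2 := hM (completeF m) (completeF m)
  have h3 := chi_le_card (P (completeF m) (completeF m))
  have h4 : Fintype.card (completeF m).V = m + 1 := by
    change Fintype.card (Fin (m + 1)) = m + 1
    simp
  rw [h4] at h2
  rw [chi_completeF] at h1
  push_cast at h1
  have h5 : ((P (completeF m) (completeF m)).chi : ℝ) ≤ M ((m + 1) + (m + 1)) := by
    exact_mod_cast h3.trans h2
  linarith

/-- **Main theorem.**  Let `P` be a graph product which is local with supports of size `r (n)`,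
and let `P X Y` have at most `M (n)` vertices, `n = |X| + |Y|`.  If
`log M (n) · (1 + log r (n)) ≤ c (log n) ^ 2 / 200` for all large `n`, then `P` is not
`c`-multiplicative.  (For `M (n) = n ^ A` this holds with `r (n) = n ^ δ` whenever
`200 A δ < c`.) -/
theorem result (P : FinGraph → FinGraph → FinGraph) (r M : ℕ → ℕ) (hP : LocalProd r P)
    (hM : SizeBound M P) (c : ℝ) (hc : 0 < c)
    (hrM : ∀ᶠ n : ℕ in atTop, Real.log (M n) * (1 + Real.log (r n)) ≤
      c / 200 * (Real.log n) ^ 2) : ¬ Multiplicative c P := by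
  intro hmul
  have hc1 : c ≤ 1 := by
    have h1 := (hmul (completeF 0) (completeF 0))
    rw [chi_completeF] at h1
    have h2 : ((P (completeF 0) (completeF 0)).chi : ℝ) ≤ 1 := by
      have := h1.2
      norm_num at this
      exact_mod_cast this
    have h3 := h1.1
    norm_num at h3
    linarith
  have hlog2 : (0.6931 : ℝ) < Real.log 2 := by
    have := Real.log_two_gt_d9; linarith
  have hlog2' : Real.log 2 < 0.6932 := by
    have := Real.log_two_lt_d9; linarith
  have hn : Tendsto (fun s : ℕ => 2 ^ (2 * s + 1)) atTop atTop := by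
    refine tendsto_atTop_mono (fun s => ?_) tendsto_id
    calc (id s : ℕ) ≤ 2 ^ s := Nat.lt_two_pow_self.le
      _ ≤ 2 ^ (2 * s + 1) := Nat.pow_le_pow_right (by norm_num) (by omega)
  obtain ⟨N₀, hN₀⟩ := exists_nat_ge (4 / c)
  obtain ⟨s, hs1, hs2, hs3⟩ := ((hn.eventually hrM).and
    ((hn.eventually (eventually_ge_atTop N₀)).and (eventually_ge_atTop 3))).exists
  set n := 2 ^ (2 * s + 1) with hndef
  have hs3' : (3 : ℝ) ≤ s := by exact_mod_cast hs3
  set l := Real.log (n : ℕ) with hl
  have hlogn : l = (2 * s + 1) * Real.log 2 := by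
    rw [hl, hndef]; push_cast; rw [Real.log_pow]; push_cast; ring
  have hnpos : (0 : ℝ) < (n : ℕ) := by rw [hndef]; positivity
  have hlpos : 0 < l := by rw [hlogn]; nlinarith
  -- `log M ≥ log n`
  have hMn : l ≤ Real.log (M n) := by
    have h1 := size_lower hM hmul (2 ^ (2 * s) - 1)
    have h2 : 2 ^ (2 * s) - 1 + 1 = 2 ^ (2 * s) := Nat.sub_add_cancel (Nat.one_le_two_pow)
    have h2' : (((2 ^ (2 * s) - 1 : ℕ) : ℝ) + 1) = 2 ^ (2 * s) := by exact_mod_cast h2
    rw [h2', h2, ← two_mul, ← pow_succ', ← hndef] at h1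
    have h3 : (4 / c : ℝ) ≤ (n : ℕ) := hN₀.trans (by exact_mod_cast hs2)
    have h4 : ((n : ℕ) : ℝ) = 2 * 2 ^ (2 * s) := by rw [hndef]; push_cast; ring
    have h5 : ((n : ℕ) : ℝ) ≤ M n := by
      rw [div_le_iff₀ hc] at h3
      have h6 : (0 : ℝ) < 2 ^ (2 * s) := by positivity
      rw [h4] at h3 ⊢
      nlinarith
    exact Real.log_le_log hnpos h5
  set L := Nat.clog 2 (2 * r n) with hL
  have h1 := chi_local_le hP (fun X Y => by
    have := (hmul X Y).2
    exact_mod_cast this) s L (by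
      rw [card_arcX, ← hndef]
      exact Nat.le_pow_clog (by norm_num) _)
  have hcard : Fintype.card (P (arcX s) (arcX s)).V ≤ M n := by
    have := hM (arcX s) (arcX s)
    rwa [card_arcX, ← hndef] at this
  have hcardpos : 0 < Fintype.card (P (arcX s) (arcX s)).V := Fintype.card_pos
  have h3 : (s : ℝ) ≤ (arcX s).chi := by exact_mod_cast le_chi_arcX s
  have h4 := (hmul (arcX s) (arcX s)).1
  set a := Real.log (M n) with ha
  set b := Real.log (r n) with hb
  have ha0 : 0 < a := hlpos.trans_le hMn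
  have hb0 : 0 ≤ b := Real.log_natCast_nonneg _
  set t := Nat.log 2 (Fintype.card (P (arcX s) (arcX s)).V) with ht
  -- bound for the number of pieces
  have hT : (t : ℝ) ≤ 1.45 * a := by
    have h5 : (2 : ℝ) ^ t ≤ M n := by
      have := (Nat.pow_log_le_self 2 hcardpos.ne').trans hcard
      exact_mod_cast this
    have h6 := Real.log_le_log (by positivity) h5
    rw [Real.log_pow, ← ha] at h6
    nlinarith [Nat.cast_nonneg (α := ℝ) t]
  -- bound for `L`
  have hL1 : ((L : ℝ) + 1) ≤ 3 * (1 + b) := by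
    rcases Nat.eq_zero_or_pos (r n) with h0 | h0
    · have hL0 : L = 0 := by rw [hL, h0]; simp
      rw [hL0]
      push_cast
      linarith
    · have hpos : 1 < 2 * r n := by omega
      have h5 : 2 ^ (L - 1) < 2 * r n := Nat.pow_pred_clog_lt_self (by norm_num) hpos
      have hLpos : 0 < L := Nat.clog_pos (by norm_num) (by omega)
      have h6 : ((2 : ℝ) ^ (L - 1)) < 2 * r n := by exact_mod_cast h5
      have h7 := Real.log_lt_log (by positivity) h6
      have hr0 : (0 : ℝ) < r n := by exact_mod_cast h0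
      rw [Real.log_pow, Real.log_mul (by norm_num) hr0.ne', ← hb] at h7
      have h8 : ((L - 1 : ℕ) : ℝ) = L - 1 := by
        rw [Nat.cast_sub hLpos]; simp
      rw [h8] at h7
      by_contra hcon
      push Not at hcon
      nlinarith
  have h5 : c * ((s : ℝ) * s) ≤ 16 * ((L : ℝ) + 1) * (t + (L + 1)) := by
    have h6 : ((t / (L + 1) + 1) * (2 * (2 * L + 1)) ^ 2 : ℕ) ≤ 16 * (L + 1) * (t + (L + 1)) := by
      have h7 : (t / (L + 1)) * (L + 1) ≤ t := Nat.div_mul_le_self _ _
      calc (t / (L + 1) + 1) * (2 * (2 * L + 1)) ^ 2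
          ≤ (t / (L + 1) + 1) * (16 * (L + 1) ^ 2) := by
            apply Nat.mul_le_mul_left
            nlinarith
        _ = 16 * (L + 1) * ((t / (L + 1)) * (L + 1) + (L + 1)) := by ring
        _ ≤ 16 * (L + 1) * (t + (L + 1)) := by
            apply Nat.mul_le_mul_left
            omega
    calc c * ((s : ℝ) * s) ≤ c * ((arcX s).chi * (arcX s).chi) := by gcongr
      _ ≤ _ := h4
      _ ≤ ((16 * (L + 1) * (t + (L + 1)) : ℕ) : ℝ) := by exact_mod_cast h1.trans h6
      _ = _ := by push_cast; ring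
  have h6 : 16 * ((L : ℝ) + 1) * (t + (L + 1)) ≤
      16 * (3 * (1 + b)) * (1.45 * a + 3 * (1 + b)) := by
    gcongr
  -- use the hypothesis
  have h7 : a * (1 + b) ≤ c / 200 * l ^ 2 := hs1
  have h8 : 1 + b ≤ c / 200 * l := by
    have h9 : l * (1 + b) ≤ a * (1 + b) := by gcongr
    have h10 : l * (1 + b) ≤ l * (c / 200 * l) := by
      calc l * (1 + b) ≤ c / 200 * l ^ 2 := h9.trans h7
        _ = l * (c / 200 * l) := by ring
    exact le_of_mul_le_mul_left h10 hlpos
  have h9 : (1 + b) * (1 + b) ≤ c / 200 * l * (c / 200 * l) := by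
    gcongr
  have h10 : 16 * (3 * (1 + b)) * (1.45 * a + 3 * (1 + b)) ≤ 0.352 * c * l ^ 2 := by
    have e1 : 16 * (3 * (1 + b)) * (1.45 * a + 3 * (1 + b)) =
        69.6 * (a * (1 + b)) + 144 * ((1 + b) * (1 + b)) := by ring
    rw [e1]
    have e2 : (1 + b) * (1 + b) ≤ 1 / 40000 * (c * l ^ 2) := by
      have e3 : c * (c * l ^ 2) ≤ 1 * (c * l ^ 2) := by gcongr
      calc (1 + b) * (1 + b) ≤ c / 200 * l * (c / 200 * l) := h9
        _ = 1 / 40000 * (c * (c * l ^ 2)) := by ring
        _ ≤ 1 / 40000 * (c * l ^ 2) := by linarith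
    have e4 : a * (1 + b) ≤ 1 / 200 * (c * l ^ 2) := by
      calc a * (1 + b) ≤ c / 200 * l ^ 2 := h7
        _ = 1 / 200 * (c * l ^ 2) := by ring
    have e5 : 0 ≤ c * l ^ 2 := by positivity
    have e6 : (0.352 : ℝ) * c * l ^ 2 = 0.352 * (c * l ^ 2) := by ring
    rw [e6]
    linarith
  have h11 : 0.36 * (c * l ^ 2) ≤ c * ((s : ℝ) * s) := by
    have h12 : l ≤ 5 / 3 * s := by
      rw [hlogn]
      nlinarith
    have h13 : l ^ 2 ≤ 25 / 9 * ((s : ℝ) * s) := by
      calc l ^ 2 ≤ (5 / 3 * (s : ℝ)) ^ 2 := by gcongr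
        _ = 25 / 9 * ((s : ℝ) * s) := by ring
    have h14 : c * l ^ 2 ≤ c * (25 / 9 * ((s : ℝ) * s)) := by gcongr
    have h15 : c * (25 / 9 * ((s : ℝ) * s)) = 25 / 9 * (c * (s * s)) := by ring
    linarith
  have h12 : 0 < c * l ^ 2 := by positivity
  have h13 : (0.352 : ℝ) * c * l ^ 2 = 0.352 * (c * l ^ 2) := by ring
  linarith

/-- Products of polynomial size with supports of size `n ^ δ`: the case `M (n) = n ^ A`,
`r (n) ≤ n ^ δ`. -/
theorem not_multiplicative_of_pow (P : FinGraph → FinGraph → FinGraph) (r : ℕ → ℕ) (A : ℕ)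
    (δ : ℝ) (hδ0 : 0 ≤ δ) (hP : LocalProd r P) (hM : SizeBound (fun n => n ^ A) P)
    (hr : ∀ n : ℕ, (r n : ℝ) ≤ (n : ℝ) ^ δ) (c : ℝ) (hc : 0 < c) (hδ : 200 * (A * δ) < c) :
    ¬ Multiplicative c P := by
  refine result P r (fun n => n ^ A) hP hM c hc ?_
  have hlog : Tendsto (fun n : ℕ => Real.log (n : ℝ)) atTop atTop :=
    Real.tendsto_log_atTop.comp tendsto_natCast_atTop_atTop
  set ε : ℝ := c / 200 - A * δ with hε
  have hεpos : 0 < ε := by rw [hε]; linarith
  filter_upwards [hlog.eventually_ge_atTop ((A : ℝ) / ε), hlog.eventually_ge_atTop 0,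
    eventually_ge_atTop 1] with n h1 h2 h3
  have hn : (0 : ℝ) < n := by exact_mod_cast h3
  rw [div_le_iff₀ hεpos] at h1
  push_cast
  rw [Real.log_pow]
  have hA : (0 : ℝ) ≤ A := Nat.cast_nonneg _
  have hb : Real.log (r n) * (A * Real.log n) ≤ δ * Real.log n * (A * Real.log n) := by
    rcases Nat.eq_zero_or_pos (r n) with h0 | h0
    · rw [h0]
      simp only [Nat.cast_zero, Real.log_zero, zero_mul]
      positivity
    · have h4 : Real.log (r n) ≤ δ * Real.log n := by
        have h5 := Real.log_le_log (by exact_mod_cast h0) (hr n)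
        rwa [Real.log_rpow hn] at h5
      gcongr
  nlinarith

end Pool.Agent.Results.MP_99abf8_co.LocalProducts
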